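import Mathlib
import Pool.Agent.Lib.MP_924496_co.Defs
import Pool.Agent.Lib.MP_924496_co.Proofs

/-!
# The bound `f(G,k) ≤ P_DP(G, χ_DP(G)+k-1)^k` is never attained for `k ≥ 2`
-/

namespace Pool.Agent.Results.MP_924496_co.NeverSharpKGeTwo

open Pool.Agent.Lib.MP_924496_co

/-- **Theorem.** For every finite nonempty graph `G` and every `k ≥ 2`,
`f(G,k) < P_DP(G, χ_DP(G)+k-1)^k`. In particular no graph `G` has
`f(G,k) = P_DP(G, χ_DP(G)+k-1)^k` for every `k`. -/
theorem result (V : Type) [Fintype V] [Nonempty V] (G : SimpleGraph V) (k : ℕ) (hk : 2 ≤ k) :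
    f G k < (PDP G (chiDP G + k - 1)) ^ k :=
  f_lt G k hk

end Pool.Agent.Results.MP_924496_co.NeverSharpKGeTwo
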